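import Pool.Agent.H87.IS.Stmts

/-!
# Row SPL of project ISO: the splitting lemma, up to any order
-/

set_option autoImplicit false

namespace Pool.Agent.H87.IS

open MvPolynomial

namespace SPLAux

variable {k : Type} [Field k] {σ : Type}

theorem ord_iff (M : ℕ) (f : MvPolynomial σ k) : Ord M f ↔ f ∈ idealOfVars σ k ^ M :=
  (mem_pow_idealOfVars_iff' M f).symm

theorem X_mem (i : σ) : (X i : MvPolynomial σ k) ∈ idealOfVars σ k :=
  Ideal.subset_span ⟨i, rfl⟩

/-- a substitution `X_i ↦ X_i + e_i` with `e_i` of order `≥ 2` changes nothing modulo order `2` -/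
theorem sub_mem_two (e : σ → MvPolynomial σ k) (he : ∀ i, e i ∈ idealOfVars σ k ^ 2)
    (R : MvPolynomial σ k) :
    aeval (fun i => X i + e i) R - R ∈ idealOfVars σ k ^ 2 := by
  induction R using MvPolynomial.induction_on with
  | C a =>
    have : aeval (fun i => X i + e i) (C a : MvPolynomial σ k) = C a := by
      rw [aeval_C]; rfl
    rw [this, sub_self]
    exact Ideal.zero_mem _
  | add p q hp hq =>
    rw [map_add]
    have : aeval (fun i => X i + e i) p + aeval (fun i => X i + e i) q - (p + q)
        = (aeval (fun i => X i + e i) p - p) + (aeval (fun i => X i + e i) q - q) := by ring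
    rw [this]
    exact Ideal.add_mem _ hp hq
  | mul_X p i hp =>
    rw [map_mul, aeval_X]
    have : aeval (fun i => X i + e i) p * (X i + e i) - p * X i
        = (aeval (fun i => X i + e i) p - p) * (X i + e i) + p * e i := by ring
    rw [this]
    exact Ideal.add_mem _ (Ideal.mul_mem_right _ _ hp) (Ideal.mul_mem_left _ _ (he i))

/-- the same modulo order `n + 1` for an argument of order `≥ n` -/
theorem sub_mem_succ (e : σ → MvPolynomial σ k) (he : ∀ i, e i ∈ idealOfVars σ k ^ 2) (n : ℕ) :
    ∀ R : MvPolynomial σ k, R ∈ idealOfVars σ k ^ n →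
      aeval (fun i => X i + e i) R - R ∈ idealOfVars σ k ^ (n + 1) := by
  induction n with
  | zero =>
    intro R _
    exact Ideal.pow_le_pow_right (by norm_num) (sub_mem_two e he R)
  | succ n ih =>
    intro R hR
    rw [pow_succ' (idealOfVars σ k) n] at hR
    refine Submodule.mul_induction_on hR ?_ ?_
    · intro a ha b hb
      have h1 := ih b hb
      have h2 := sub_mem_two e he a
      have h3 : aeval (fun i => X i + e i) b ∈ idealOfVars σ k ^ n := by
        have : aeval (fun i => X i + e i) b = (aeval (fun i => X i + e i) b - b) + b := by ring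
        rw [this]
        exact Ideal.add_mem _ (Ideal.pow_le_pow_right (Nat.le_succ n) h1) hb
      rw [map_mul]
      have : aeval (fun i => X i + e i) a * aeval (fun i => X i + e i) b - a * b
          = (aeval (fun i => X i + e i) a - a) * aeval (fun i => X i + e i) b
            + a * (aeval (fun i => X i + e i) b - b) := by ring
      rw [this]
      refine Ideal.add_mem _ ?_ ?_
      · have h4 := Ideal.mul_mem_mul h2 h3
        rw [← pow_add] at h4
        have : 2 + n = n + 1 + 1 := by ring
        rwa [this] at h4
      · have h4 := Ideal.mul_mem_mul ha h1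
        rwa [← pow_succ' (idealOfVars σ k) (n + 1)] at h4
    · intro a b ha hb
      rw [map_add]
      have : aeval (fun i => X i + e i) a + aeval (fun i => X i + e i) b - (a + b)
          = (aeval (fun i => X i + e i) a - a) + (aeval (fun i => X i + e i) b - b) := by ring
      rw [this]
      exact Ideal.add_mem _ ha hb

/-- equality of the coefficients of degree `< 2` -/
theorem coeff_eq_of_sub_mem {a b : MvPolynomial σ k} (h : a - b ∈ idealOfVars σ k ^ 2)
    (m : σ →₀ ℕ) (hm : m.degree < 2) : coeff m a = coeff m b := by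
  have := (mem_pow_idealOfVars_iff' 2 _).1 h m hm
  rw [coeff_sub, sub_eq_zero] at this
  exact this

variable [Fintype σ] [DecidableEq σ]

/-- the decomposition of a polynomial of order `≥ M` -/
def Dec (p q : σ) (M : ℕ) (R : MvPolynomial σ k) : Prop :=
  ∃ (R₀ : MvPolynomial (Fin 2) k) (r : σ → MvPolynomial σ k),
    R₀ ∈ idealOfVars (Fin 2) k ^ M ∧ (∀ i, r i ∈ idealOfVars σ k ^ (M - 1)) ∧
    R = rename ![p, q] R₀ + ∑ i ∈ Finset.univ.filter (fun i => i ≠ p ∧ i ≠ q), X i * r i

theorem Dec.zero (p q : σ) (M : ℕ) : Dec p q M (0 : MvPolynomial σ k) :=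
  ⟨0, fun _ => 0, Ideal.zero_mem _, fun _ => Ideal.zero_mem _, by simp⟩

theorem Dec.add {p q : σ} {M : ℕ} {R S : MvPolynomial σ k} (hR : Dec p q M R)
    (hS : Dec p q M S) : Dec p q M (R + S) := by
  obtain ⟨R₀, r, h1, h2, h3⟩ := hR
  obtain ⟨S₀, s, h4, h5, h6⟩ := hS
  refine ⟨R₀ + S₀, fun i => r i + s i, Ideal.add_mem _ h1 h4,
    fun i => Ideal.add_mem _ (h2 i) (h5 i), ?_⟩
  rw [h3, h6, map_add]
  simp only [mul_add, Finset.sum_add_distrib]
  ring

theorem Dec.monomial {p q : σ} (hpq : p ≠ q) {M : ℕ} (m : σ →₀ ℕ) (c : k) (hm : M ≤ m.degree) :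
    Dec p q M (MvPolynomial.monomial m c) := by
  by_cases h : ∃ i, i ≠ p ∧ i ≠ q ∧ m i ≠ 0
  · obtain ⟨i, hip, hiq, hi⟩ := h
    refine ⟨0, fun j => if j = i then MvPolynomial.monomial (m - Finsupp.single i 1) c else 0,
      Ideal.zero_mem _, ?_, ?_⟩
    · intro j
      by_cases hj : j = i
      · simp only [hj, if_true]
        rw [mem_pow_idealOfVars_iff]
        intro x hx
        have hx' : x = m - Finsupp.single i 1 := by
          have := support_monomial_subset hx
          simpa using this
        rw [hx']
        have h1 : Finsupp.single i 1 ≤ m := by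
          rw [Finsupp.single_le_iff]
          exact Nat.one_le_iff_ne_zero.2 hi
        have h2 : (m - Finsupp.single i 1) + Finsupp.single i 1 = m := tsub_add_cancel_of_le h1
        have h3 := congrArg Finsupp.degree h2
        rw [map_add, Finsupp.degree_single] at h3
        omega
      · simp only [hj, if_false]
        exact Ideal.zero_mem _
    · rw [map_zero, zero_add]
      rw [Finset.sum_eq_single i]
      · simp only [if_true]
        have h1 : Finsupp.single i 1 ≤ m := by
          rw [Finsupp.single_le_iff]
          exact Nat.one_le_iff_ne_zero.2 hi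
        have h2 : Finsupp.single i 1 + (m - Finsupp.single i 1) = m := add_tsub_cancel_of_le h1
        rw [X, monomial_mul, one_mul, h2]
      · intro j _ hj
        simp [hj]
      · intro hi'
        exact absurd (Finset.mem_filter.2 ⟨Finset.mem_univ _, hip, hiq⟩) hi'
  · push Not at h
    have hsupp : m = Finsupp.single p (m p) + Finsupp.single q (m q) := by
      ext i
      rw [Finsupp.add_apply, Finsupp.single_apply, Finsupp.single_apply]
      by_cases hip : p = i
      · subst hip
        simp [hpq.symm]
      · by_cases hiq : q = i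
        · subst hiq
          simp [hpq]
        · simp only [hip, hiq, if_false, add_zero]
          exact h i (Ne.symm hip) (Ne.symm hiq)
    refine ⟨MvPolynomial.monomial (Finsupp.single 0 (m p) + Finsupp.single 1 (m q)) c,
      fun _ => 0, ?_, fun _ => Ideal.zero_mem _, ?_⟩
    · rw [mem_pow_idealOfVars_iff]
      intro x hx
      have hx' : x = Finsupp.single 0 (m p) + Finsupp.single 1 (m q) := by
        have := support_monomial_subset hx
        simpa using this
      have hd := congrArg Finsupp.degree hsupp
      rw [map_add, Finsupp.degree_single, Finsupp.degree_single] at hd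
      rw [hx', map_add, Finsupp.degree_single, Finsupp.degree_single]
      omega
    · rw [rename_monomial, Finsupp.mapDomain_add, Finsupp.mapDomain_single,
        Finsupp.mapDomain_single]
      simp only [mul_zero, Finset.sum_const_zero, add_zero]
      conv_lhs => rw [hsupp]
      simp

theorem dec_of_mem {p q : σ} (hpq : p ≠ q) {M : ℕ} (R : MvPolynomial σ k)
    (hR : R ∈ idealOfVars σ k ^ M) : Dec p q M R := by
  rw [R.as_sum]
  refine Finset.sum_induction _ (Dec p q M) (fun _ _ => Dec.add) (Dec.zero p q M) ?_
  intro m hm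
  exact Dec.monomial hpq m _ ((mem_pow_idealOfVars_iff M R).1 hR m hm)

omit [Fintype σ] [DecidableEq σ] in
/-- the substitution does not change the variables `p`, `q` -/
theorem aeval_rename (e : σ → MvPolynomial σ k) (p q : σ) (hp : e p = 0) (hq : e q = 0)
    (g : MvPolynomial (Fin 2) k) :
    aeval (fun i => X i + e i) (rename ![p, q] g) = rename ![p, q] g := by
  rw [MvPolynomial.aeval_rename]
  have : (fun i => X i + e i) ∘ ![p, q] = fun j => (X (![p, q] j) : MvPolynomial σ k) := by
    funext j
    fin_cases j
    · simp [hp]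
    · simp [hq]
  have h : (aeval fun j => (X (![p, q] j) : MvPolynomial σ k)) = rename (R := k) ![p, q] := by
    apply MvPolynomial.algHom_ext
    intro i
    rw [aeval_X, rename_X]
  rw [this, h]

/-- one step -/
theorem step [CharZero k] (f : MvPolynomial σ k) (x0 : σ → k) (p q : σ) (hpq : p ≠ q) (M : ℕ)
    (hM : 3 ≤ M) (φ : σ → MvPolynomial σ k) (g : MvPolynomial (Fin 2) k)
    (h0 : ∀ i, coeff 0 (φ i) = x0 i) (hj : (jac φ).det ≠ 0) (hg : Ord 2 g)
    (hf : Ord M (aeval φ f - susp p q g)) :
    ∃ (φ' : σ → MvPolynomial σ k) (g' : MvPolynomial (Fin 2) k),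
      (∀ i, coeff 0 (φ' i) = x0 i) ∧ (jac φ').det ≠ 0 ∧ Ord 2 g' ∧
        Ord (M + 1) (aeval φ' f - susp p q g') := by
  rw [ord_iff] at hf hg
  obtain ⟨R₀, r, hR₀, hr, hR⟩ := dec_of_mem hpq _ hf
  set e : σ → MvPolynomial σ k := fun i => if i = p ∨ i = q then 0 else - (C (1 / 2) * r i) with he
  have hep : e p = 0 := by simp [he]
  have heq : e q = 0 := by simp [he]
  have heM : ∀ i, e i ∈ idealOfVars σ k ^ (M - 1) := by
    intro i
    by_cases hi : i = p ∨ i = q
    · simp only [he, hi, if_true]
      exact Ideal.zero_mem _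
    · simp only [he, hi, if_false]
      exact (Ideal.neg_mem_iff _).2 (Ideal.mul_mem_left _ _ (hr i))
  have he2 : ∀ i, e i ∈ idealOfVars σ k ^ 2 := fun i =>
    Ideal.pow_le_pow_right (by omega) (heM i)
  have hsub : ∀ P : MvPolynomial σ k, aeval (fun i => X i + e i) P - P ∈ idealOfVars σ k ^ 2 :=
    sub_mem_two e he2
  refine ⟨fun i => aeval (fun i => X i + e i) (φ i), g + R₀, ?_, ?_, ?_, ?_⟩
  · intro i
    rw [← h0 i]
    exact coeff_eq_of_sub_mem (hsub (φ i)) 0 (by simp)
  · have : jac (fun i => aeval (fun i => X i + e i) (φ i)) = jac φ := by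
      ext i j
      exact coeff_eq_of_sub_mem (hsub (φ i)) _ (by rw [Finsupp.degree_single]; norm_num)
    rw [this]
    exact hj
  · rw [ord_iff]
    exact Ideal.add_mem _ hg (Ideal.pow_le_pow_right (by omega) hR₀)
  · rw [ord_iff]
    have h1 : aeval (fun i => aeval (fun i => X i + e i) (φ i)) f
        = aeval (fun i => X i + e i) (aeval φ f) := by
      rw [MvPolynomial.comp_aeval_apply]
    have h2 : aeval φ f = susp p q g + (aeval φ f - susp p q g) := by ring
    have h3 : aeval (fun i => X i + e i) (susp p q g)
        = susp p q g - ∑ i ∈ Finset.univ.filter (fun i => i ≠ p ∧ i ≠ q), X i * r i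
          + ∑ i ∈ Finset.univ.filter (fun i => i ≠ p ∧ i ≠ q), e i ^ 2 := by
      unfold susp
      rw [map_add, aeval_rename e p q hep heq, map_sum, add_sub_assoc, add_assoc]
      congr 1
      rw [← Finset.sum_sub_distrib, ← Finset.sum_add_distrib]
      refine Finset.sum_congr rfl fun i hi => ?_
      have hi' := (Finset.mem_filter.1 hi).2
      have hnot : ¬ (i = p ∨ i = q) := by
        rintro (h | h)
        · exact hi'.1 h
        · exact hi'.2 h
      have hei : e i = - (C (1 / 2) * r i) := by simp only [he, hnot, if_false]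
      rw [map_pow, aeval_X]
      have h2' : (C (1 / 2) : MvPolynomial σ k) * 2 = 1 := by
        rw [show (2 : MvPolynomial σ k) = C 2 by rw [map_ofNat], ← C_mul]
        norm_num
      have h5 : (2 : MvPolynomial σ k) * (X i * e i) = - (X i * r i) := by
        rw [hei]
        calc (2 : MvPolynomial σ k) * (X i * -(C (1 / 2) * r i))
            = - ((C (1 / 2) * 2) * (X i * r i)) := by ring
          _ = - (X i * r i) := by rw [h2', one_mul]
      calc (X i + e i) ^ 2 = X i ^ 2 + 2 * (X i * e i) + e i ^ 2 := by ring
        _ = X i ^ 2 - X i * r i + e i ^ 2 := by rw [h5]; ring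
    have h4 : susp p q (g + R₀) = susp p q g + rename ![p, q] R₀ := by
      unfold susp
      rw [map_add]
      ring
    set R := aeval φ f - susp p q g with hRdef
    have h6 : aeval (fun i => aeval (fun i => X i + e i) (φ i)) f - susp p q (g + R₀)
        = ∑ i ∈ Finset.univ.filter (fun i => i ≠ p ∧ i ≠ q), e i ^ 2
          + (aeval (fun i => X i + e i) R - R) := by
      rw [h1, h2, map_add, h3, h4]
      linear_combination hR
    rw [h6]
    refine Ideal.add_mem _ ?_ (sub_mem_succ e he2 M R hf)
    refine Ideal.sum_mem _ fun i _ => ?_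
    have := Ideal.pow_mem_pow (heM i) 2
    rw [← pow_mul] at this
    exact Ideal.pow_le_pow_right (by omega) this

end SPLAux

open SPLAux in
theorem SPL : SPLStmt := by
  intro k _ _ σ _ _ f x0 A U p q hpq hA hU h3 M hM
  induction M, hM using Nat.le_induction with
  | base =>
    refine ⟨fun i => C (x0 i) + ∑ j, C (A i j) * X j,
      C (U p / 2) * X 0 ^ 2 + C (U q / 2) * X 1 ^ 2, ?_, ?_, ?_, ?_⟩
    · intro i
      rw [coeff_add, coeff_C, coeff_sum]
      simp
    · have : jac (fun i => C (x0 i) + ∑ j, C (A i j) * X j) = A := by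
        ext i j
        unfold jac
        rw [Matrix.of_apply, coeff_add, coeff_C, coeff_sum]
        have h0 : (0 : σ →₀ ℕ) ≠ Finsupp.single j 1 := by
          intro h
          have := DFunLike.congr_fun h j
          simp at this
        rw [if_neg h0, zero_add, Finset.sum_eq_single j]
        · rw [coeff_C_mul, coeff_X, if_pos rfl, mul_one]
        · intro l _ hl
          rw [coeff_C_mul, coeff_X, if_neg, mul_zero]
          intro h
          exact hl (Finsupp.single_left_injective one_ne_zero h)
        · intro h
          exact absurd (Finset.mem_univ _) h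
      rw [this]
      exact hA
    · rw [ord_iff]
      exact Ideal.add_mem _ (Ideal.mul_mem_left _ _ (Ideal.pow_mem_pow (X_mem 0) 2))
        (Ideal.mul_mem_left _ _ (Ideal.pow_mem_pow (X_mem 1) 2))
    · have h4 : (∑ i, C (U i / 2) * X i ^ 2 : MvPolynomial σ k)
          = susp p q (C (U p / 2) * X 0 ^ 2 + C (U q / 2) * X 1 ^ 2) := by
        unfold susp
        rw [← Finset.sum_filter_add_sum_filter_not Finset.univ (fun i => i ≠ p ∧ i ≠ q), add_comm]
        congr 1
        · have : Finset.univ.filter (fun i => ¬ (i ≠ p ∧ i ≠ q)) = {p, q} := by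
            ext i
            simp only [Finset.mem_filter, Finset.mem_univ, true_and, Finset.mem_insert,
              Finset.mem_singleton]
            tauto
          rw [this, Finset.sum_pair hpq]
          simp
        · refine Finset.sum_congr rfl fun i hi => ?_
          have hi' := (Finset.mem_filter.1 hi).2
          rw [hU i hi'.1 hi'.2]
          rw [div_self (two_ne_zero), C_1, one_mul]
      rw [← h4]
      exact h3
  | succ M hM ih =>
    obtain ⟨φ, g, h0, hj, hg, hf⟩ := ih
    exact step f x0 p q hpq M hM φ g h0 hj hg hf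

end Pool.Agent.H87.IS

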